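import Pool.Agent.Helper62.DSH.StC

/-!
# Project DS, module FMK (smooth alternating component families belong to smooth forms)
-/

set_option autoImplicit false

open Set Filter Topology MeasureTheory
open Helper62.LH
open scoped ContDiff ENNReal

noncomputable section

namespace Pool.Agent.Helper11.DSH

open Helper62.DSH

variable {n j : ℕ}

/-- evaluation of an alternating map at the standard basis vectors -/
private def ev (n j : ℕ) : ((Fin n → ℝ) [⋀^Fin j]→ₗ[ℝ] ℝ) →ₗ[ℝ] Tn n j where
  toFun A I := A (fun k => Pi.single (I k) 1)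
  map_add' _ _ := rfl
  map_smul' _ _ := rfl

private theorem expand (A : (Fin n → ℝ) [⋀^Fin j]→ₗ[ℝ] ℝ) (w : Fin j → Fin n → ℝ) :
    A w = ∑ I : Fin j → Fin n, (∏ k, w k (I k)) * ev n j A I := by
  have hw : w = fun k => ∑ a, w k a • (Pi.single a 1 : Fin n → ℝ) := by
    funext k
    exact pi_eq_sum_univ' (w k)
  have h1 : A w = A.toMultilinearMap (fun k => ∑ a, w k a • (Pi.single a 1 : Fin n → ℝ)) :=
    congrArg A hw
  rw [h1, MultilinearMap.map_sum]
  apply Finset.sum_congr rfl
  intro I _
  rw [MultilinearMap.map_smul_univ]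
  rfl

private theorem ev_inj : Function.Injective (ev n j) := by
  intro A B h
  ext w
  rw [expand, expand B, h]

/-- evaluation of a form at the standard basis vectors -/
private def evc (n j : ℕ) : (E n [⋀^Fin j]→L[ℝ] ℝ) →ₗ[ℝ] Tn n j where
  toFun A I := A (fun k => ee (I k))
  map_add' _ _ := rfl
  map_smul' _ _ := rfl

/-- the form belonging to an alternating map and a coframe -/
private def mkc (A : (Fin n → ℝ) [⋀^Fin j]→ₗ[ℝ] ℝ) (θ : E n →L[ℝ] (Fin n → ℝ)) :
    E n [⋀^Fin j]→L[ℝ] ℝ where
  toMultilinearMap := (A.compLinearMap θ.toLinearMap).toMultilinearMap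
  cont := by
    have h : (fun v : Fin j → E n => A (fun k => θ (v k))) =
        fun v => ∑ I : Fin j → Fin n, (∏ k, θ (v k) (I k)) * ev n j A I := by
      funext v
      exact expand A _
    show Continuous (fun v : Fin j → E n => A (fun k => θ (v k)))
    rw [h]
    apply continuous_finset_sum
    intro I _
    apply Continuous.mul _ continuous_const
    apply continuous_finset_prod
    intro k _
    exact (continuous_apply (I k)).comp (θ.continuous.comp (continuous_apply k))
  map_eq_zero_of_eq' := (A.compLinearMap θ.toLinearMap).map_eq_zero_of_eq'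

private theorem mkc_apply (A : (Fin n → ℝ) [⋀^Fin j]→ₗ[ℝ] ℝ) (θ : E n →L[ℝ] (Fin n → ℝ))
    (v : Fin j → E n) : mkc A θ v = A (fun k => θ (v k)) := rfl

private theorem evc_inj : Function.Injective (evc n j) := by
  intro A B h
  ext v
  have hv : v = fun k => ∑ a, (v k) a • (ee a : E n) := by
    funext k
    ext i
    simp [ee, Finset.sum_apply, Pi.single_apply]
  have h1 : ∀ C : E n [⋀^Fin j]→L[ℝ] ℝ,
      C v = ∑ I : Fin j → Fin n, (∏ k, (v k) (I k)) * evc n j C I := by
    intro C
    have h2 : C v = C.toMultilinearMap (fun k => ∑ a, (v k) a • (ee a : E n)) :=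
      congrArg C hv
    rw [h2, MultilinearMap.map_sum]
    apply Finset.sum_congr rfl
    intro I _
    rw [MultilinearMap.map_smul_univ]
    rfl
  rw [h1, h1 B, h]

/-- FMK -/
theorem hFmk (hAlt : TAlt) : TFmk := by
  intro n j g Γ F G hg hF u hu hal
  obtain ⟨hA1, -, -, -⟩ := hAlt n j
  -- left inverses
  obtain ⟨L, hL⟩ := LinearMap.exists_leftInverse_of_injective (ev n j)
    (LinearMap.ker_eq_bot.2 ev_inj)
  obtain ⟨M, hM⟩ := LinearMap.exists_leftInverse_of_injective (evc n j)
    (LinearMap.ker_eq_bot.2 evc_inj)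
  have hevL : ∀ x, ev n j (L (u x)) = u x := by
    intro x
    obtain ⟨A, hA⟩ := hA1 (u x) (hal x)
    have h1 : ev n j A = u x := funext hA
    rw [← h1]
    have h2 : L (ev n j A) = A := LinearMap.congr_fun hL A
    rw [h2]
  have hMe : ∀ C, M (evc n j C) = C := fun C => LinearMap.congr_fun hM C
  -- coframe
  obtain ⟨θ, hθ⟩ : ∃ θ : E n → E n →L[ℝ] (Fin n → ℝ),
      θ = fun x => ContinuousLinearMap.pi (fun a => (g x).flip (F a x)) := ⟨_, rfl⟩
  have hθa : ∀ x v a, θ x v a = g x v (F a x) := by
    intro x v a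
    rw [hθ]
    rfl
  have hθF : ∀ x b, θ x (F b x) = Pi.single b 1 := by
    intro x b
    funext a
    rw [hθa, (hF.onb x).orth b a, Pi.single_apply]
    simp only [eq_comm]
  obtain ⟨c, hc⟩ : ∃ c : E n → Tn n j, c = fun x I =>
      ∑ I' : Fin j → Fin n, (∏ k, g x (ee (I k)) (F (I' k) x)) * u x I' := ⟨_, rfl⟩
  have hcs : ContDiff ℝ ∞ c := by
    rw [hc, contDiff_pi]
    intro I
    apply ContDiff.sum
    intro I' _
    apply ContDiff.mul
    · apply contDiff_prod
      intro k _
      exact (hg.smooth.clm_apply contDiff_const).clm_apply (hF.smF (I' k))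
    · exact (contDiff_pi.1 hu) I'
  have hψ : ∀ x, M (c x) = mkc (L (u x)) (θ x) := by
    intro x
    rw [← hMe (mkc (L (u x)) (θ x))]
    congr 1
    rw [hc]
    funext I
    show _ = mkc (L (u x)) (θ x) (fun k => ee (I k))
    rw [mkc_apply, expand, hevL]
    apply Finset.sum_congr rfl
    intro I' _
    congr 1
    apply Finset.prod_congr rfl
    intro k _
    rw [hθa]
  refine ⟨fun x => M (c x), ?_, ?_⟩
  · have h1 : (fun x => M (c x)) = fun x => (LinearMap.toContinuousLinearMap M) (c x) := rfl
    rw [h1]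
    exact (LinearMap.toContinuousLinearMap M).contDiff.comp hcs
  · intro x
    funext J
    show M (c x) (fun k => F (J k) x) = u x J
    rw [hψ, mkc_apply]
    have h1 : (fun k => θ x (F (J k) x)) = fun k => (Pi.single (J k) 1 : Fin n → ℝ) := by
      funext k
      exact hθF x (J k)
    rw [h1]
    exact congrFun (hevL x) J

end Pool.Agent.Helper11.DSH
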